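import Pool.Agent.Helper91.KZ.StG

/-!
# MP_1d885e_al, module INT: elements of `A[X]` algebraic over `K[X]` are integral
-/

namespace Pool.Agent.Helper27.KZ

open Polynomial TensorProduct
open Pool.Agent.Helper91.KZ
open scoped PowerSeries

universe u

noncomputable section

section aux

variable {K A : Type u} [Field K] [Ring A] [Algebra K A]

theorem ca_comm (c : K[X]) (w : A[X]) : Commute (mapRingHom (algebraMap K A) c) w := by
  induction c using Polynomial.induction_on' with
  | add p q hp hq => rw [map_add]; exact hp.add_left hq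
  | monomial n a =>
    rw [coe_mapRingHom, map_monomial]
    induction w using Polynomial.induction_on' with
    | add p q hp hq => exact hp.add_right hq
    | monomial m b =>
      change monomial n _ * monomial m b = monomial m b * monomial n _
      rw [monomial_mul_monomial, monomial_mul_monomial, Algebra.commutes, add_comm]

theorem ev_mul (P Q : K[X][X]) (z : A[X]) : ev (P * Q) z = ev P z * ev Q z := by
  unfold ev
  exact eval₂_mul_noncomm _ _ fun k => ca_comm _ _

theorem ev_C (c : K[X]) (z : A[X]) : ev (C c) z = ca A c := by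
  unfold ev ca
  rw [eval₂_C]; rfl

theorem ev_add (P Q : K[X][X]) (z : A[X]) : ev (P + Q) z = ev P z + ev Q z := by
  unfold ev
  exact eval₂_add _ _

theorem ca_reg {c : K[X]} (hc : c ≠ 0) {w : A[X]} (h : ca A c * w = 0) : w = 0 := by
  by_contra hw
  have hl : w.leadingCoeff ≠ 0 := leadingCoeff_ne_zero.2 hw
  have : Nontrivial A := ⟨⟨_, _, hl⟩⟩
  have hinj : Function.Injective (algebraMap K A) := (algebraMap K A).injective
  have h1 : (ca A c).leadingCoeff = algebraMap K A c.leadingCoeff := by
    unfold ca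
    exact leadingCoeff_map_of_injective hinj c
  have h2 : (ca A c).leadingCoeff * w.leadingCoeff ≠ 0 := by
    rw [h1]
    intro h0
    apply hl
    have h3 : algebraMap K A (c.leadingCoeff⁻¹) * (algebraMap K A c.leadingCoeff * w.leadingCoeff)
        = 0 := by rw [h0, mul_zero]
    rw [← mul_assoc, ← map_mul, inv_mul_cancel₀ (leadingCoeff_ne_zero.2 hc), map_one,
      one_mul] at h3
    exact h3
  have h3 := leadingCoeff_mul' h2
  rw [h, leadingCoeff_zero] at h3
  exact h2 h3.symm

end aux

section theta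

variable (K A : Type u) [Field K] [Ring A] [Algebra K A] (K' : Type u) [Field K'] [Algebra K K']
  (l : K')

/-- the inclusion of `A` in `K' ⊗ A` -/
def inc : A →+* K' ⊗[K] A :=
  (Algebra.TensorProduct.includeRight : A →ₐ[K] K' ⊗[K] A).toRingHom

theorem comm_lin (a : K' ⊗[K] A) :
    Commute (C a) (X + C (algebraMap K' (K' ⊗[K] A) l) : (K' ⊗[K] A)[X]) := by
  refine Commute.add_right (commute_X (C a)).symm ?_
  change C a * C _ = C _ * C a
  rw [← C_mul, ← C_mul, Algebra.commutes]

/-- base change and translation, to power series -/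
def th : A[X] →+* (K' ⊗[K] A)⟦X⟧ :=
  (coeToPowerSeries.ringHom (R := K' ⊗[K] A)).comp
    ((eval₂RingHom' C (X + C (algebraMap K' (K' ⊗[K] A) l)) (comm_lin K A K' l)).comp
      (mapRingHom (inc K A K')))

theorem th_apply (w : A[X]) : th K A K' l w =
    (((w.map (Algebra.TensorProduct.includeRight : A →ₐ[K] K' ⊗[K] A).toRingHom).comp
        (X + C (algebraMap K' (K' ⊗[K] A) l)) : (K' ⊗[K] A)[X]) : (K' ⊗[K] A)⟦X⟧) := rfl

/-- the translated polynomial over `K'` -/
def tc (c : K[X]) : K'⟦X⟧ := ((c.map (algebraMap K K')).comp (X + C l) : K'[X])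

theorem th_ca (c : K[X]) : th K A K' l (ca A c) =
    (tc K K' l c).map (algebraMap K' (K' ⊗[K] A)) := by
  rw [th_apply]
  unfold tc ca
  have hm : ∀ q : K'[X], PowerSeries.map (algebraMap K' (K' ⊗[K] A)) (q : K'⟦X⟧) =
      ((q.map (algebraMap K' (K' ⊗[K] A)) : (K' ⊗[K] A)[X]) : (K' ⊗[K] A)⟦X⟧) := by
    intro q
    ext n
    rw [PowerSeries.coeff_map, Polynomial.coeff_coe, Polynomial.coeff_coe, Polynomial.coeff_map]
  rw [hm]
  congr 1
  rw [Polynomial.map_comp, Polynomial.map_map, Polynomial.map_map, Polynomial.map_add, map_X, map_C]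
  congr 2
  ext a
  change (Algebra.TensorProduct.includeRight : A →ₐ[K] K' ⊗[K] A) (algebraMap K A a) = _
  rw [AlgHom.commutes]
  rw [RingHom.comp_apply, ← IsScalarTower.algebraMap_apply]

theorem tc_cc (c : K[X]) : (tc K K' l c).constantCoeff = aeval l c := by
  unfold tc
  rw [constantCoeff_coe, coeff_zero_eq_eval_zero, eval_comp, eval_add, eval_X, eval_C, zero_add,
    eval_map_algebraMap]

end theta

theorem INT (h1 : ST_CMP.{u}) (h2 : ST_IN2.{u}) : ST_INT.{u} := by
  intro K A _ _ _ _ z Q₀ hQ₀ hz₀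
  classical
  -- least degree
  have hex : ∃ n : ℕ, ∃ Q : K[X][X], Q ≠ 0 ∧ ev Q z = 0 ∧ Q.natDegree = n :=
    ⟨_, Q₀, hQ₀, hz₀, rfl⟩
  obtain ⟨n, hn⟩ : ∃ n, n = Nat.find hex := ⟨_, rfl⟩
  have hmin : ∀ Q : K[X][X], ev Q z = 0 → Q.natDegree < n → Q = 0 := by
    intro Q hQ hd
    by_contra h0
    rw [hn] at hd
    exact Nat.find_min hex hd ⟨Q, h0, hQ, rfl⟩
  have hex2 : ∃ m : ℕ, ∃ Q : K[X][X], Q ≠ 0 ∧ ev Q z = 0 ∧ Q.natDegree = n ∧
      Q.leadingCoeff.natDegree = m := by
    obtain ⟨Q, hQ, hz, hd⟩ := Nat.find_spec hex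
    exact ⟨_, Q, hQ, hz, hd.trans hn.symm, rfl⟩
  obtain ⟨Q, hQ0, hQz, hQn, hQm⟩ := Nat.find_spec hex2
  have hmin2 : ∀ R : K[X][X], R ≠ 0 → ev R z = 0 → R.natDegree = n →
      Q.leadingCoeff.natDegree ≤ R.leadingCoeff.natDegree := by
    intro R hR hz hd
    rw [hQm]
    exact Nat.find_min' hex2 ⟨R, hR, hz, hd, rfl⟩
  have hlc : Q.leadingCoeff ≠ 0 := leadingCoeff_ne_zero.2 hQ0
  -- independence of the powers
  have hind : ∀ c : Fin n → K[X], ∑ i, ca A (c i) * z ^ (i : ℕ) = 0 → c = 0 := by
    intro c hc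
    set R : K[X][X] := ∑ i : Fin n, C (c i) * X ^ (i : ℕ) with hR
    have hRz : ev R z = 0 := by
      rw [← hc, hR]
      unfold ev ca
      rw [eval₂_finsetSum]
      refine Finset.sum_congr rfl fun i _ => ?_
      rw [eval₂_mul_noncomm _ _ fun k => ca_comm _ _, eval₂_C, eval₂_X_pow]
      rfl
    have hR0 : R = 0 := by
      by_cases hn0 : n = 0
      · subst hn0
        simp [hR]
      · refine hmin R hRz ?_
        have : R.degree < n := by
          rw [hR]
          refine (degree_sum_le _ _).trans_lt ?_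
          rw [Finset.sup_lt_iff (by exact WithBot.bot_lt_coe n)]
          intro i _
          refine (degree_C_mul_X_pow_le _ _).trans_lt ?_
          exact_mod_cast i.2
        by_cases hR0 : R = 0
        · rw [hR0, natDegree_zero]
          exact Nat.pos_of_ne_zero hn0
        · exact (natDegree_lt_iff_degree_lt hR0).2 this
    funext i
    have h3 : R.coeff i = c i := by
      rw [hR, finsetSum_coeff, Finset.sum_eq_single i]
      · rw [coeff_C_mul_X_pow, if_pos rfl]
      · intro j _ hj
        rw [coeff_C_mul_X_pow, if_neg]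
        intro h
        exact hj (Fin.ext h).symm
      · intro h
        exact absurd (Finset.mem_univ _) h
    rw [← h3, hR0]
    simp
  -- the leading coefficient is constant
  have hconst : Q.leadingCoeff.natDegree = 0 := by
    by_contra hd0
    obtain ⟨g, hg, hgd⟩ : ∃ g : K[X], Irreducible g ∧ g ∣ Q.leadingCoeff :=
      exists_irreducible_of_natDegree_ne_zero hd0
    have : Fact (Irreducible g) := ⟨hg⟩
    have hroot : ∀ c : K[X], aeval (AdjoinRoot.root g) c = 0 ↔ g ∣ c := by
      intro c
      rw [AdjoinRoot.aeval_eq, AdjoinRoot.mk_eq_zero]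
    -- some coefficient is not divisible by g
    have hnot : ∃ j, j < n ∧ ¬ g ∣ Q.coeff j := by
      by_contra hall
      push Not at hall
      have hdv : C g ∣ Q := by
        rw [C_dvd_iff_dvd_coeff]
        intro i
        rcases lt_trichotomy i n with h | h | h
        · exact hall i h
        · rw [h, ← hQn]; exact hgd
        · rw [coeff_eq_zero_of_natDegree_lt (by omega)]; exact dvd_zero _
      obtain ⟨R, hR⟩ := hdv
      have hR0 : R ≠ 0 := by
        rintro rfl
        exact hQ0 (by rw [hR, mul_zero])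
      have hRz : ev R z = 0 := by
        apply ca_reg hg.ne_zero
        rw [← ev_C g z, ← ev_mul, ← hR, hQz]
      have hRd : R.natDegree = n := by
        rw [← hQn, hR, natDegree_C_mul hg.ne_zero]
      have h4 := hmin2 R hR0 hRz hRd
      rw [hR, leadingCoeff_mul, leadingCoeff_C, natDegree_mul hg.ne_zero
        (leadingCoeff_ne_zero.2 hR0)] at h4
      have h5 : 0 < g.natDegree := hg.natDegree_pos
      omega
    -- the largest one
    obtain ⟨d, hdn, hd, hdmax⟩ : ∃ d, d < n ∧ ¬ g ∣ Q.coeff d ∧ ∀ j, d < j → j ≤ n →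
        g ∣ Q.coeff j := by
      obtain ⟨j, hj, hgj⟩ := hnot
      let P : ℕ → Prop := fun j => j < n ∧ ¬ g ∣ Q.coeff j
      refine ⟨Nat.findGreatest P n, ?_, ?_, ?_⟩
      · exact (Nat.findGreatest_spec (P := P) hj.le ⟨hj, hgj⟩).1
      · exact (Nat.findGreatest_spec (P := P) hj.le ⟨hj, hgj⟩).2
      · intro i hi hin
        rcases hin.lt_or_eq with h | h
        · by_contra hc
          exact Nat.findGreatest_is_greatest (P := P) hi hin ⟨h, hc⟩
        · rw [h, ← hQn]; exact hgd
    set K' := AdjoinRoot g with hK'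
    set l : K' := AdjoinRoot.root g with hl
    have hsum : ∑ j ∈ Finset.range (n + 1), (tc K K' l (Q.coeff j)).map
        (algebraMap K' (K' ⊗[K] A)) * (th K A K' l z) ^ j = 0 := by
      have h5 : ev Q z = ∑ j ∈ Finset.range (n + 1), ca A (Q.coeff j) * z ^ j := by
        unfold ev
        rw [eval₂_eq_sum_range, hQn]
        rfl
      have h6 := congrArg (th K A K' l) h5
      rw [hQz, map_zero, map_sum] at h6
      rw [h6]
      refine Finset.sum_congr rfl fun j _ => ?_
      rw [map_mul, map_pow, th_ca]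
    obtain ⟨b, hb⟩ := h1 K' (K' ⊗[K] A) n d (th K A K' l z) (fun j => tc K K' l (Q.coeff j))
      hdn.le hsum
      (by
        rw [tc_cc]
        exact fun h => hd ((hroot _).1 h))
      (by
        intro j hj hjn
        rw [tc_cc]
        exact (hroot _).2 (hdmax j hj hjn))
    let b' : Fin n → K'⟦X⟧ := fun j => if (j : ℕ) < d then b j else if (j : ℕ) = d then -1 else 0
    have h7 := h2 K A K' n (fun j : Fin n => z ^ (j : ℕ)) l hind b' (by
      have h8 : ∀ j : Fin n, ((((fun j : Fin n => z ^ (j : ℕ)) j).map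
          (Algebra.TensorProduct.includeRight : A →ₐ[K] K' ⊗[K] A).toRingHom).comp
          (X + C (algebraMap K' (K' ⊗[K] A) l)) : (K' ⊗[K] A)[X]) =
          (th K A K' l z) ^ (j : ℕ) := by
        intro j
        rw [← map_pow, th_apply]
      simp_rw [h8]
      rw [Fin.sum_univ_eq_sum_range (fun j : ℕ => ((if j < d then b j else if j = d then -1 else 0 :
        K'⟦X⟧)).map (algebraMap K' (K' ⊗[K] A)) * (th K A K' l z) ^ j) n]
      rw [← Finset.sum_subset (s₁ := Finset.range (d + 1))]
      · rw [Finset.sum_range_succ, if_neg (lt_irrefl d), if_pos rfl, map_neg, map_one, neg_mul,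
          one_mul]
        rw [hb, ← sub_eq_add_neg, sub_eq_zero]
        refine Finset.sum_congr rfl fun j hj => ?_
        rw [if_pos (Finset.mem_range.1 hj)]
      · intro j hj
        rw [Finset.mem_range] at hj ⊢
        omega
      · intro j _ hj
        rw [Finset.mem_range] at hj
        rw [if_neg (by omega), if_neg (by omega), map_zero, zero_mul])
    have h9 := congrFun h7 ⟨d, hdn⟩
    simp only [b', lt_irrefl, if_false, if_true, Pi.zero_apply] at h9
    exact one_ne_zero (neg_eq_zero.1 h9)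
  -- the monic polynomial
  obtain ⟨a, ha⟩ : ∃ a : K, Q.leadingCoeff = C a := ⟨_, eq_C_of_natDegree_eq_zero hconst⟩
  have ha0 : a ≠ 0 := by
    rintro rfl
    rw [C_0] at ha
    exact hlc ha
  have hu : (C (C a⁻¹) : K[X][X]) ≠ 0 := by
    simpa using ha0
  refine ⟨C (C a⁻¹) * Q, ?_, ?_, ?_⟩
  · unfold Monic
    rw [leadingCoeff_mul, leadingCoeff_C, ha, ← C_mul, inv_mul_cancel₀ ha0, C_1]
  · rw [ev_mul, hQz, mul_zero]
  · intro R hR hRz
    by_contra hR0
    have h10 : (C (C a⁻¹) * Q).natDegree = n := by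
      rw [natDegree_C_mul (by simpa using ha0), hQn]
    exact hR0 (hmin R hRz (by
      rw [← h10]
      exact natDegree_lt_natDegree hR0 hR))

end

end Pool.Agent.Helper27.KZ
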