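import Pool.Agent.Helper39.KZ.Stmts

/-!
# STAR: the starlike criterion (Schwarz lemma)
-/

set_option autoImplicit false

open Metric Set Filter Topology

namespace KZ

namespace STAR

/-- the inverse of an injective analytic function has a derivative -/
lemma inv_deriv {f : ℂ → ℂ} (hf : DifferentiableOn ℂ f (ball 0 1)) (hinj : InjOn f (ball 0 1))
    {a : ℂ} (ha : a ∈ ball (0 : ℂ) 1) (hd : deriv f a ≠ 0) :
    HasDerivAt (Function.invFunOn f (ball 0 1)) (deriv f a)⁻¹ (f a) := by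
  set k := Function.invFunOn f (ball (0 : ℂ) 1) with hk
  have hnb : ball (0 : ℂ) 1 ∈ 𝓝 a := isOpen_ball.mem_nhds ha
  have han : AnalyticAt ℂ f a := hf.analyticAt hnb
  have hs : HasStrictDerivAt f (deriv f a) a := han.hasStrictDerivAt
  have hka : ∀ s ∈ ball (0 : ℂ) 1, k (f s) = s := fun s hs' =>
    hinj.leftInvOn_invFunOn hs'
  have hmap : map f (𝓝 a) = 𝓝 (f a) := hs.map_nhds_eq hd
  have hcont : ContinuousAt k (f a) := by
    intro V hV
    rw [hka a ha] at hV
    rw [mem_map, ← hmap, mem_map]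
    filter_upwards [hV, hnb] with s hs1 hs2
    simp only [mem_preimage]
    rw [hka s hs2]
    exact hs1
  have hright : ∀ᶠ y in 𝓝 (f a), f (k y) = y := by
    rw [← hmap, eventually_map]
    filter_upwards [hnb] with s hs2
    rw [hka s hs2]
  have hfa : HasDerivAt f (deriv f a) (k (f a)) := by
    rw [hka a ha]
    exact hs.hasDerivAt
  exact HasDerivAt.of_local_left_inverse hcont hfa hd hright

/-- if `f` is injective and analytic on the disc, `f 0 = 0` and `f (𝔻)` is star-shaped, then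
`Re (conj s * (f s / f' s)) ≥ 0`. -/
lemma starlike {f : ℂ → ℂ} (hf : DifferentiableOn ℂ f (ball 0 1)) (hinj : InjOn f (ball 0 1))
    (hd : ∀ a ∈ ball (0 : ℂ) 1, deriv f a ≠ 0) (h0 : f 0 = 0)
    (hstar : ∀ s ∈ ball (0 : ℂ) 1, ∀ l : ℝ, 0 < l → l < 1 →
      ((l : ℂ) * f s) ∈ f '' ball (0 : ℂ) 1) {s : ℂ} (hs : s ∈ ball (0 : ℂ) 1) :
    0 ≤ ((f s * (deriv f s)⁻¹) * (starRingEnd ℂ) s).re := by
  set k := Function.invFunOn f (ball (0 : ℂ) 1) with hk
  have hka : ∀ s ∈ ball (0 : ℂ) 1, k (f s) = s := fun s hs' =>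
    hinj.leftInvOn_invFunOn hs'
  have hmem : ∀ y ∈ f '' ball (0 : ℂ) 1, k y ∈ ball (0 : ℂ) 1 ∧ f (k y) = y := by
    rintro y ⟨u, hu, rfl⟩
    rw [hka u hu]
    exact ⟨hu, rfl⟩
  -- Schwarz
  have hsch : ∀ l : ℝ, 0 < l → l < 1 → ‖k ((l : ℂ) * f s)‖ ≤ ‖s‖ := by
    intro l hl0 hl1
    have hD : DifferentiableOn ℂ (fun u => k ((l : ℂ) * f u)) (ball 0 1) := by
      intro u hu
      obtain ⟨h1, h2⟩ := hmem _ (hstar u hu l hl0 hl1)
      have h3 := inv_deriv hf hinj h1 (hd _ h1)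
      rw [h2] at h3
      have h4 : HasDerivAt (fun u => (l : ℂ) * f u) ((l : ℂ) * deriv f u) u :=
        ((hf.differentiableAt (isOpen_ball.mem_nhds hu)).hasDerivAt).const_mul _
      exact (HasDerivAt.comp u h3 h4).differentiableAt.differentiableWithinAt
    have hM : MapsTo (fun u => k ((l : ℂ) * f u)) (ball 0 1) (ball 0 1) := fun u hu =>
      (hmem _ (hstar u hu l hl0 hl1)).1
    have hz : (fun u => k ((l : ℂ) * f u)) 0 = 0 := by
      show k ((l : ℂ) * f 0) = 0
      rw [h0, mul_zero, ← h0, hka 0 (mem_ball_self one_pos)]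
      exact h0.symm
    have hs' : ‖s‖ < 1 := by simpa using hs
    exact Complex.norm_le_norm_of_mapsTo_ball hD (fun u hu => ball_subset_closedBall (hM hu)) hz hs'
  -- derivative at l = 1
  have h3 : HasDerivAt k (deriv f s)⁻¹ (f s) := inv_deriv hf hinj hs (hd s hs)
  have h4 : HasDerivAt (fun l : ℝ => (l : ℂ) * f s) (1 * f s) (1 : ℝ) :=
    (Complex.ofRealCLM.hasDerivAt (x := (1 : ℝ))).mul_const (f s)
  have h5 : HasDerivAt (fun l : ℝ => k ((l : ℂ) * f s)) ((1 * f s) * (deriv f s)⁻¹) (1 : ℝ) := by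
    have h3' : HasDerivAt k (deriv f s)⁻¹ (((1 : ℝ) : ℂ) * f s) := by simpa using h3
    have := h3'.scomp (1 : ℝ) h4
    simpa [Function.comp_def, smul_eq_mul] using this
  have h6 := h5.norm_sq
  have hk1 : k (((1 : ℝ) : ℂ) * f s) = s := by
    rw [Complex.ofReal_one, one_mul]; exact hka s hs
  rw [hasDerivAt_iff_tendsto_slope] at h6
  have h7 := h6.mono_left (nhdsWithin_mono (1 : ℝ) (fun l (hl : l ∈ Iio (1 : ℝ)) => ne_of_lt hl))
  have h8 := ge_of_tendsto h7 (b := 0) (by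
    have hI : Ioo (0 : ℝ) 1 ∈ 𝓝[<] (1 : ℝ) := Ioo_mem_nhdsLT one_pos
    filter_upwards [hI] with l hl
    rw [slope_def_field]
    have h9 : ‖k ((l : ℂ) * f s)‖ ^ 2 ≤ ‖s‖ ^ 2 :=
      pow_le_pow_left₀ (norm_nonneg _) (hsch l hl.1 hl.2) 2
    have h10 : (fun l : ℝ => ‖k ((l : ℂ) * f s)‖ ^ 2) l - (fun l : ℝ => ‖k ((l : ℂ) * f s)‖ ^ 2) 1 ≤ 0 := by
      simp only [hk1]; linarith
    exact div_nonneg_of_nonpos h10 (by linarith [hl.2]))
  rw [hk1, Complex.inner] at h8
  have : 0 ≤ (((1 * f s) * (deriv f s)⁻¹) * (starRingEnd ℂ) s).re := by linarith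
  simpa using this

end STAR

open STAR in
theorem st_STAR : ST_STAR := by
  intro K g hK hE z hz t ht
  have hne : ∀ s ∈ ball (0 : ℂ) 1, 1 - g s * z ≠ 0 := by
    intro s hs h
    have h1 : g s * z = 1 := (sub_eq_zero.mp h).symm
    have h2 : g s ∈ {u : ℂ | u = 0 ∨ u⁻¹ ∉ K} := by
      rw [← hE.image]; exact mem_image_of_mem g hs
    rcases h2 with h2 | h2
    · rw [h2] at h1; simp at h1
    · apply h2
      rw [inv_eq_of_mul_eq_one_right h1]
      exact hz
  refine ⟨hne t ht, ?_⟩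
  by_cases ht0 : t = 0
  · subst ht0
    have h0 : (0 : ℂ) ∈ ball (0 : ℂ) 1 := mem_ball_self one_pos
    have : tau g 0 = 1 := by
      unfold tau
      rw [dslope_same]
      exact div_self (hE.der 0 h0)
    rw [this, hE.zero]
    simp
  -- the function f = g / (1 - g z)
  set f : ℂ → ℂ := fun s => g s / (1 - g s * z) with hf
  have hgd : ∀ s ∈ ball (0 : ℂ) 1, HasDerivAt g (deriv g s) s := fun s hs =>
    (hE.diff.differentiableAt (isOpen_ball.mem_nhds hs)).hasDerivAt
  have hfd : ∀ s ∈ ball (0 : ℂ) 1, HasDerivAt f (deriv g s / (1 - g s * z) ^ 2) s := by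
    intro s hs
    have h1 := hgd s hs
    have h2 : HasDerivAt (fun s => 1 - g s * z) (0 - deriv g s * z) s :=
      (hasDerivAt_const s (1 : ℂ)).sub (h1.mul_const z)
    have h3 := h1.div h2 (hne s hs)
    have h4 : (deriv g s * (1 - g s * z) - g s * (0 - deriv g s * z)) / (1 - g s * z) ^ 2
        = deriv g s / (1 - g s * z) ^ 2 := by
      congr 1; ring
    rw [h4] at h3
    exact h3
  have hfdiff : DifferentiableOn ℂ f (ball 0 1) := fun s hs =>
    (hfd s hs).differentiableAt.differentiableWithinAt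
  have hfder : ∀ s ∈ ball (0 : ℂ) 1, deriv f s ≠ 0 := by
    intro s hs
    rw [(hfd s hs).deriv]
    exact div_ne_zero (hE.der s hs) (pow_ne_zero 2 (hne s hs))
  have hinj : InjOn f (ball 0 1) := by
    intro s hs s' hs' h
    apply hE.inj hs hs'
    have h1 : g s / (1 - g s * z) = g s' / (1 - g s' * z) := h
    rw [div_eq_div_iff (hne s hs) (hne s' hs')] at h1
    linear_combination h1
  have hf0 : f 0 = 0 := by simp [hf, hE.zero]
  have h0K : (0 : ℂ) ∈ K := interior_subset hK.2.2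
  have hstar : ∀ s ∈ ball (0 : ℂ) 1, ∀ l : ℝ, 0 < l → l < 1 →
      ((l : ℂ) * f s) ∈ f '' ball (0 : ℂ) 1 := by
    intro s hs l hl0 hl1
    by_cases hgs : g s = 0
    · refine ⟨0, mem_ball_self one_pos, ?_⟩
      rw [hf0]
      simp [hf, hgs]
    have hlc : (l : ℂ) ≠ 0 := by exact_mod_cast hl0.ne'
    have hgsK : (g s)⁻¹ ∉ K := by
      have h2 : g s ∈ {u : ℂ | u = 0 ∨ u⁻¹ ∉ K} := by
        rw [← hE.image]; exact mem_image_of_mem g hs
      rcases h2 with h2 | h2
      · exact absurd h2 hgs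
      · exact h2
    set y : ℂ := z + (l : ℂ)⁻¹ * ((g s)⁻¹ - z) with hy
    have hyK : y ∉ K := by
      intro hyK
      apply hgsK
      have h1 : (g s)⁻¹ = (1 - l) • z + l • y := by
        rw [hy]
        simp only [Complex.real_smul]
        push_cast
        field_simp
        ring
      rw [h1]
      exact hK.2.1 hz hyK (by linarith) hl0.le (by ring)
    have hy0 : y ≠ 0 := fun h => hyK (h ▸ h0K)
    have h3 : y⁻¹ ∈ g '' ball (0 : ℂ) 1 := by
      rw [hE.image]
      right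
      rw [inv_inv]
      exact hyK
    obtain ⟨u, hu, hgu⟩ := h3
    refine ⟨u, hu, ?_⟩
    have h4 := hne u hu
    have h5 := hne s hs
    show g u / (1 - g u * z) = (l : ℂ) * (g s / (1 - g s * z))
    have h6 : g u * y = 1 := by rw [hgu]; exact inv_mul_cancel₀ hy0
    have h7 : (l : ℂ) * g s * y = (l : ℂ) * g s * z + (1 - g s * z) := by
      rw [hy]; field_simp
    rw [div_eq_iff h4]
    have h8 : g u * ((l : ℂ) * g s * y) = (l : ℂ) * g s := by
      calc g u * ((l : ℂ) * g s * y) = (l : ℂ) * g s * (g u * y) := by ring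
        _ = _ := by rw [h6, mul_one]
    rw [h7] at h8
    field_simp
    linear_combination h8
  have h1 := starlike hfdiff hinj hfder hf0 hstar ht
  rw [(hfd t ht).deriv] at h1
  -- conversion
  have hgt : g t ≠ 0 := by
    intro h
    apply ht0
    apply hE.inj ht (mem_ball_self one_pos)
    rw [h, hE.zero]
  have hds : dslope g 0 t = g t / t := by
    rw [dslope_of_ne _ ht0, slope_def_field, hE.zero]
    simp
  have hg't := hE.der t ht
  have hnt := hne t ht
  set w : ℂ := tau g t / (1 - g t * z) with hw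
  have hwe : w = t * deriv g t / (g t * (1 - g t * z)) := by
    rw [hw]; unfold tau; rw [hds]; field_simp
  have hw0 : w ≠ 0 := by
    rw [hwe]
    exact div_ne_zero (mul_ne_zero ht0 hg't) (mul_ne_zero hgt hnt)
  have h2 : (f t * (deriv g t / (1 - g t * z) ^ 2)⁻¹) * (starRingEnd ℂ) t
      = (((‖t‖ ^ 2 : ℝ)) : ℂ) * w⁻¹ := by
    have h3 : t * (starRingEnd ℂ) t = (((‖t‖ ^ 2 : ℝ)) : ℂ) := by
      rw [Complex.mul_conj, Complex.normSq_eq_norm_sq]
    rw [← h3, hwe]
    show (g t / (1 - g t * z) * (deriv g t / (1 - g t * z) ^ 2)⁻¹) * (starRingEnd ℂ) t = _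
    field_simp
  rw [h2, Complex.re_ofReal_mul] at h1
  have h4 : 0 < ‖t‖ ^ 2 := by positivity
  have h5 : 0 ≤ (w⁻¹).re := by
    by_contra h6
    have := mul_neg_of_pos_of_neg h4 (not_le.mp h6)
    linarith
  rw [Complex.inv_re] at h5
  have h6 : 0 < Complex.normSq w := Complex.normSq_pos.mpr hw0
  by_contra h7
  have := div_neg_of_neg_of_pos (not_le.mp h7) h6
  linarith

end KZ
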